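import Pool.Agent.Helper86.NB.St

/-! Project NB (MP_cd9119_pr), module GTH: harmonic functions on the group of pairs. -/

set_option autoImplicit false

namespace Pool.Agent.Helper64.NB

open Filter Topology Pool.Agent.Helper86.NB Pool.Agent.Helper86.ML Pool.Agent.Helper67.Cour

/-- The convolution with `mt` at one point. -/
theorem mt_sum (h1 : StGTC) {G : Type} [Group G] (A : Subgroup G) [A.Normal] {κ : G → ℝ} (p : ℝ)
    (a : A) (hκ : Courteous κ) {F : Gt A → ℂ} (hF : Bdd F) (z : Gt A) :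
    ∑' s, F (z * s⁻¹) * (mt A κ p a s : ℂ) = (∑' x, F (z * (dg A x)⁻¹) * (κ x : ℂ)) +
      p * (F (z * (lf A a)⁻¹) + F (z * (lf A a⁻¹)⁻¹) - F (z * (dg A a)⁻¹) -
        F (z * (dg A (a : G)⁻¹)⁻¹)) := by
  obtain ⟨C, hC⟩ := hF
  exact (h1.2.1 G A κ p a (fun w => F (z * w⁻¹)) ⟨hκ.nonneg, hκ.sum_one⟩
    ⟨C, fun x => hC _⟩).tsum_eq

theorem inv_right {H : Type} [Group H] (N : Subgroup H) [N.Normal] {F : H → ℂ}
    (hF : ∀ b ∈ N, ∀ z, F (b * z) = F z) (b : H) (hb : b ∈ N) (z : H) : F (z * b) = F z := by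
  have h1 : z * b = (z * b * z⁻¹) * z := by group
  rw [h1]
  exact hF _ (Subgroup.Normal.conj_mem inferInstance _ hb z) _

/-- MODULE GTH -/
theorem hGTH (h1 : StGTC) : StGTH := by
  constructor
  · intro G _ A _ κ p a hκ f hf
    have hF : Bdd (fun z : Gt A => f z.1.1) := by
      obtain ⟨C, hC⟩ := hf
      exact ⟨C, fun z => hC _⟩
    have key : ∀ z : Gt A, ∑' s : Gt A, f (z * s⁻¹).1.1 * (mt A κ p a s : ℂ) =
        ∑' x, f (z.1.1 * x⁻¹) * (κ x : ℂ) := by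
      intro z
      have h := mt_sum h1 A p a hκ hF z
      have e1 : (z * (lf A a)⁻¹).1.1 = z.1.1 * (a : G)⁻¹ := rfl
      have e2 : (z * (lf A a⁻¹)⁻¹).1.1 = z.1.1 * ((a : G)⁻¹)⁻¹ := rfl
      have e3 : (z * (dg A (a : G))⁻¹).1.1 = z.1.1 * (a : G)⁻¹ := rfl
      have e4 : (z * (dg A (a : G)⁻¹)⁻¹).1.1 = z.1.1 * ((a : G)⁻¹)⁻¹ := rfl
      have e5 : ∀ x, (z * (dg A x)⁻¹).1.1 = z.1.1 * x⁻¹ := fun x => rfl
      simp only [e1, e2, e3, e4, e5] at h
      rw [h]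
      ring
    constructor
    · intro hh z
      show f z.1.1 = ∑' s : Gt A, f (z * s⁻¹).1.1 * (mt A κ p a s : ℂ)
      rw [key z]
      exact hh z.1.1
    · intro hh x
      have h2 := hh (dg A x)
      have h3 : f (dg A x).1.1 = ∑' s : Gt A, f (dg A x * s⁻¹).1.1 * (mt A κ p a s : ℂ) := h2
      rw [key (dg A x)] at h3
      exact h3
  · intro G _ A _ κ p a hκ hA F hF hh hKA hCc y
    have h2 := hh (dg A y)
    rw [mt_sum h1 A p a hκ hF (dg A y)] at h2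
    have ka : lf A a ∈ KA A := mem_KA.2 rfl
    have ka' : lf A a⁻¹ ∈ KA A := mem_KA.2 rfl
    have ca : ∀ b : G, b ∈ A → dg A b ∈ Cc A := fun b hb => mem_Cc.2 ⟨rfl, fun c hc => hA b hb c hc⟩
    have e1 := inv_right (KA A) hKA _ ((KA A).inv_mem ka) (dg A y)
    have e2 := inv_right (KA A) hKA _ ((KA A).inv_mem ka') (dg A y)
    have e3 := inv_right (Cc A) hCc _ ((Cc A).inv_mem (ca a a.2)) (dg A y)
    have e4 := inv_right (Cc A) hCc _ ((Cc A).inv_mem (ca (a : G)⁻¹ (A.inv_mem a.2))) (dg A y)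
    rw [e1, e2, e3, e4] at h2
    show F (dg A y) = ∑' s, F (dg A (y * s⁻¹)) * (κ s : ℂ)
    have e5 : ∀ s, dg A (y * s⁻¹) = dg A y * (dg A s)⁻¹ := fun s => by rw [map_mul, map_inv]
    simp only [e5]
    conv_lhs => rw [h2]
    ring

end Pool.Agent.Helper64.NB
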